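import Pool.Agent.Lib.MP_ca0fc2_an.Mg.G103
import Pool.Agent.Lib.MP_ca0fc2_an.Mg.G108

/-! Campaign DS, row 9: the projection for bounded Dirichlet series. -/

set_option autoImplicit false

open Metric Set Filter Topology
open scoped ZeroAtInfty

namespace Pool.Agent.MPca0fc2.DS

open Pool.Agent.MPca0fc2.FP Pool.Agent.MPca0fc2.PD

/-- Bounded Dirichlet series: bounded holomorphic functions `F` on `Re s > 0` with `F s = ∑ a_k k^(-s)`
(absolutely convergent) for all `s` with large real part. -/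
def IsDirichlet (F : ℂ → ℂ) : Prop :=
  DifferentiableOn ℂ F RHP ∧ (∃ C : ℝ, ∀ s ∈ RHP, ‖F s‖ ≤ C) ∧
    ∃ (a : ℕ → ℂ) (σ : ℝ), ∀ s : ℂ, σ < s.re → LSeriesHasSum a s (F s)

/-- Bohr's correspondence -/
theorem corr : Corr pt IsDirichlet where
  mem := fun _ hs => pt_mem hs
  congr := by
    rintro F F' ⟨hd, ⟨C, hC⟩, a, σ, ha⟩ he
    refine ⟨hd.congr fun s hs => (he s hs).symm, ⟨C, fun s hs => ?_⟩, a, max σ 0, fun s hs => ?_⟩
    · rw [← he s hs]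
      exact hC s hs
    · rw [← he s ((le_max_right _ _).trans_lt hs)]
      exact ha s ((le_max_left _ _).trans_lt hs)
  bdd := fun _ hF => hF.2.1
  fwd := by
    rintro H ⟨hd, C, hC⟩
    obtain ⟨a, ha⟩ := bohr_forward hd hC
    exact ⟨hd.comp pt_diff fun s hs => pt_mem hs, ⟨C, fun s hs => hC _ (pt_mem hs)⟩, a, 1, ha⟩
  uniq := by
    rintro H ⟨hd, C, hC⟩ h0
    exact bohr_unique hd hC h0
  bwd := by
    rintro F A ⟨hd, -, a, σ, ha⟩ hA
    obtain ⟨H, h1, h2, h3⟩ := bohr_backward hd hA ha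
    exact ⟨H, ⟨h1, A, h2⟩, h2, fun s hs => (h3 s hs).symm⟩

/-- **The ball in one variable.** -/
theorem exists_dirichlet {n : ℕ} (hn : 2 ≤ n) : ∃ (G : c0 → En n) (P : (c0 → ℂ) → En n → ℂ)
    (Q : (ℂ → ℂ) → En n → ℂ),
    DifferentiableOn ℂ G (ball 0 1) ∧ (∀ x ∈ ball (0 : c0) 1, G x ∈ ball (0 : En n) 1) ∧
    IsProj G 1 P ∧ IsProjD IsDirichlet (fun s => G (pt s)) Q ∧
    DifferentiableOn ℂ (fun s => G (pt s)) RHP ∧
    (∀ s ∈ RHP, G (pt s) ∈ ball (0 : En n) 1) ∧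
    (∀ φ : En n → ℂ, IsH φ → IsDirichlet fun s => φ (G (pt s))) ∧
    ∀ (N : ℕ) (f : Fin N → En n → ℂ), (∀ j, IsH (f j)) → ∀ A, 0 ≤ A →
      (BSolv f A ↔ ESolv (fun j x => f j (G x)) A) ∧
      (BSolv f A ↔ DSolv IsDirichlet (fun j s => f j (G (pt s))) A) := by
  obtain ⟨G, P, hGd, hGm, hP⟩ := exists_isProj hn
  obtain ⟨Q, hQ⟩ := exists_projD corr hGd hGm hP
  exact ⟨G, P, Q, hGd, hGm, hP, hQ, hGd.comp pt_diff fun s hs => pt_mem hs,
    fun s hs => hGm _ (pt_mem hs), fun φ hφ => corr.comp hGd hGm hφ, fun N f hf A hA =>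
    ⟨esolv_iff hGd hGm hP hf hA, dsolv_iff corr hGd hGm hP hf hA⟩⟩

end Pool.Agent.MPca0fc2.DS
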